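import Pool.Agent.K7.H12.FI.Conc

/-!
# Project FI, job SIZE: sizes of the graph and of the symmetric differences
-/

set_option autoImplicit false
set_option linter.unusedSectionVars false
set_option linter.unusedSimpArgs false

namespace Pool.Agent.K7.H41.FI

open Pool.Agent.K7.H15.Irr Pool.Agent.K7.H12.FI

theorem mis_symm {X : Type} (P : Par X) (u v : Lab) : Mis P u v ↔ Mis P v u := by
  cases u <;> cases v <;> simp only [Mis]
  omega

theorem adj_iff {X : Type} (F : OrientedGraph X) (P : Par X) (h : IsHom F F P.ρ) (u v : Vt P) :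
    (gph F P h).underlying.Adj u v ↔
      (img F P.ρ h).underlying.Adj (cl u) (cl v) ∧ ¬ Mis P (lab u) (lab v) := by
  show ((gph F P h).Arc u v ∨ (gph F P h).Arc v u) ↔ _
  show (((img F P.ρ h).Arc (cl u) (cl v) ∧ ¬ Mis P (lab u) (lab v)) ∨
    ((img F P.ρ h).Arc (cl v) (cl u) ∧ ¬ Mis P (lab v) (lab u))) ↔
    (((img F P.ρ h).Arc (cl u) (cl v) ∨ (img F P.ρ h).Arc (cl v) (cl u)) ∧ _)
  rw [mis_symm P (lab v) (lab u)]
  tauto

theorem mem_sd {X : Type} (F : OrientedGraph X) (P : Par X) (h : IsHom F F P.ρ) (u v c : Vt P)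
    (huv : cl u = cl v) (hc : c ∈ sd (gph F P h) u v) :
    (Mis P (lab u) (lab c) ∧ ¬ Mis P (lab v) (lab c)) ∨
      (¬ Mis P (lab u) (lab c) ∧ Mis P (lab v) (lab c)) := by
  have h1 : ¬ ((gph F P h).underlying.Adj u c ↔ (gph F P h).underlying.Adj v c) := hc
  rw [adj_iff, adj_iff, huv] at h1
  tauto

section count

variable {X : Type} [Finite X] {P : Par X}

theorem card_cls : Nat.card (Cls P) ≤ Nat.card X :=
  Nat.card_le_card_of_injective (fun g : Cls P => g.1) Subtype.val_injective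

/-- the size of a set of vertices from the sizes of its parts in the classes -/
theorem ncard_le (S : Set (Vt P)) (q1 q2 q3 : ℕ)
    (h1 : ∀ g : Cls P, {q : Fin (P.r g.1) × Fin P.m | bk g q.1 q.2 ∈ S}.ncard ≤ q1)
    (h2 : ∀ g : Cls P, {q : Fin P.b × Fin (P.R g.1) | tt g q.1 q.2 ∈ S}.ncard ≤ q2)
    (h3 : ∀ g : Cls P, {j : Fin P.m | ww g j ∈ S}.ncard ≤ q3) :
    S.ncard ≤ Nat.card X * (q1 + q2 + q3) := by
  classical
  have := Fintype.ofFinite (Cls P)
  let f : Cls P → Set (Vt P) := fun g =>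
    ((fun q : Fin (P.r g.1) × Fin P.m => bk g q.1 q.2) '' {q | bk g q.1 q.2 ∈ S}) ∪
    (((fun q : Fin P.b × Fin (P.R g.1) => tt g q.1 q.2) '' {q | tt g q.1 q.2 ∈ S}) ∪
    ((fun j : Fin P.m => ww g j) '' {j | ww g j ∈ S}))
  have hf : ∀ g, (f g).ncard ≤ q1 + q2 + q3 := by
    intro g
    refine (Set.ncard_union_le _ _).trans ?_
    have e1 := (Set.ncard_image_le (f := fun q : Fin (P.r g.1) × Fin P.m => bk g q.1 q.2)
      (s := {q | bk g q.1 q.2 ∈ S})).trans (h1 g)
    have e2 := (Set.ncard_image_le (f := fun q : Fin P.b × Fin (P.R g.1) => tt g q.1 q.2)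
      (s := {q | tt g q.1 q.2 ∈ S})).trans (h2 g)
    have e3 := (Set.ncard_image_le (f := fun j : Fin P.m => ww g j)
      (s := {j | ww g j ∈ S})).trans (h3 g)
    have e4 := Set.ncard_union_le
      ((fun q : Fin P.b × Fin (P.R g.1) => tt g q.1 q.2) '' {q | tt g q.1 q.2 ∈ S})
      ((fun j : Fin P.m => ww g j) '' {j | ww g j ∈ S})
    omega
  have hS : S ⊆ ⋃ g ∈ (Finset.univ : Finset (Cls P)), f g := by
    rintro ⟨g, y⟩ hy
    simp only [Set.mem_iUnion]
    refine ⟨g, Finset.mem_univ _, ?_⟩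
    rcases y with ⟨i, j⟩ | ⟨c, l⟩ | j
    · exact Or.inl ⟨(i, j), hy, rfl⟩
    · exact Or.inr (Or.inl ⟨(c, l), hy, rfl⟩)
    · exact Or.inr (Or.inr ⟨j, hy, rfl⟩)
  have h4 : S.ncard ≤ ∑ g : Cls P, (f g).ncard :=
    (Set.ncard_le_ncard hS).trans (Finset.set_ncard_biUnion_le _ _)
  refine h4.trans ((Finset.sum_le_card_nsmul _ _ _ fun g _ => hf g).trans ?_)
  rw [smul_eq_mul, Finset.card_univ, ← Nat.card_eq_fintype_card]
  exact Nat.mul_le_mul_right _ card_cls

theorem ncard_le_prod {a b : ℕ} (T : Set (Fin a × Fin b)) : T.ncard ≤ a * b := by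
  refine (Set.ncard_le_ncard (Set.subset_univ T)).trans_eq ?_
  rw [Set.ncard_univ]
  simp

theorem ncard_le_fin {a : ℕ} (T : Set (Fin a)) : T.ncard ≤ a := by
  refine (Set.ncard_le_ncard (Set.subset_univ T)).trans_eq ?_
  rw [Set.ncard_univ]
  simp

theorem ncard_empty_le {α : Type} (T : Set α) (h : ∀ x, x ∉ T) (q : ℕ) : T.ncard ≤ q := by
  have : T = ∅ := Set.eq_empty_iff_forall_notMem.2 h
  rw [this]
  simp

/-- columns in a set of at most `q` elements -/
theorem ncard_col {a b : ℕ} (T : Set (Fin a × Fin b)) (J : Set (Fin b)) (q : ℕ)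
    (hJ : J.ncard ≤ q) (h : ∀ x ∈ T, x.2 ∈ J) : T.ncard ≤ a * q := by
  have h1 : T ⊆ (Set.univ : Set (Fin a)) ×ˢ J := fun x hx => ⟨Set.mem_univ _, h x hx⟩
  refine (Set.ncard_le_ncard h1).trans ?_
  rw [Set.ncard_prod, Set.ncard_univ]
  simp only [Nat.card_eq_fintype_card, Fintype.card_fin]
  exact Nat.mul_le_mul_left _ hJ

/-- rows in a set of at most `q` elements -/
theorem ncard_row {a b : ℕ} (T : Set (Fin a × Fin b)) (J : Set (Fin a)) (q : ℕ)
    (hJ : J.ncard ≤ q) (h : ∀ x ∈ T, x.1 ∈ J) : T.ncard ≤ q * b := by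
  have h1 : T ⊆ J ×ˢ (Set.univ : Set (Fin b)) := fun x hx => ⟨h x hx, Set.mem_univ _⟩
  refine (Set.ncard_le_ncard h1).trans ?_
  rw [Set.ncard_prod, Set.ncard_univ]
  simp only [Nat.card_eq_fintype_card, Fintype.card_fin]
  exact Nat.mul_le_mul_right _ hJ

theorem ncard_pair {a : ℕ} (u v : ℕ) : {x : Fin a | (x : ℕ) = u ∨ (x : ℕ) = v}.ncard ≤ 2 := by
  classical
  have h1 : {x : Fin a | (x : ℕ) = u ∨ (x : ℕ) = v} = {x : Fin a | (x : ℕ) = u} ∪
      {x : Fin a | (x : ℕ) = v} := rfl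
  have h2 : ∀ w : ℕ, {x : Fin a | (x : ℕ) = w}.ncard ≤ 1 := by
    intro w
    rw [Set.ncard_le_one]
    rintro x hx y hy
    exact Fin.ext ((show (x : ℕ) = w from hx).trans (show (y : ℕ) = w from hy).symm)
  rw [h1]
  exact (Set.ncard_union_le _ _).trans (by have := h2 u; have := h2 v; omega)

theorem ncard_one {a : ℕ} (u : ℕ) : {x : Fin a | (x : ℕ) = u}.ncard ≤ 1 := by
  rw [Set.ncard_le_one]
  rintro x hx y hy
  exact Fin.ext ((show (x : ℕ) = u from hx).trans (show (y : ℕ) = u from hy).symm)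

/-- the columns of a block -/
theorem ncard_blk {m : ℕ} (blk : ℕ → ℕ) (c : ℕ) :
    {j : Fin m | blk j = c}.ncard = {j : ℕ | j < m ∧ blk j = c}.ncard := by
  rw [← Set.ncard_image_of_injective _ (Fin.val_injective (n := m))]
  congr 1
  ext j
  constructor
  · rintro ⟨i, hi, rfl⟩
    exact ⟨i.2, hi⟩
  · rintro ⟨h1, h2⟩
    exact ⟨⟨j, h1⟩, h2, rfl⟩

theorem ncard_two_blk {m : ℕ} (blk : ℕ → ℕ) (q : ℕ)
    (hq : ∀ c, {j : ℕ | j < m ∧ blk j = c}.ncard ≤ q) (c c' : ℕ) :
    {j : Fin m | blk j = c ∨ blk j = c'}.ncard ≤ 2 * q := by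
  have h1 : {j : Fin m | blk j = c ∨ blk j = c'} = {j : Fin m | blk j = c} ∪
      {j : Fin m | blk j = c'} := rfl
  rw [h1]
  refine (Set.ncard_union_le _ _).trans ?_
  rw [ncard_blk, ncard_blk]
  have := hq c
  have := hq c'
  omega

/-- the column hubs that see exactly one of two column hubs -/
theorem ncard_ww {m : ℕ} (j j' : ℕ) :
    {x : Fin m | (m < j + x + 2 ∧ ¬ m < j' + x + 2) ∨ (¬ m < j + x + 2 ∧ m < j' + x + 2)}.ncard ≤
      (j - j') + (j' - j) := by
  classical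
  rw [← Set.ncard_image_of_injective _ (Fin.val_injective (n := m))]
  refine (Set.ncard_le_ncard (t := ((Finset.Ico (m - 1 - j') (m - 1 - j) ∪
    Finset.Ico (m - 1 - j) (m - 1 - j') : Finset ℕ) : Set ℕ)) ?_ (Finset.finite_toSet _)).trans ?_
  · rintro _ ⟨x, hx, rfl⟩
    have hx' : (m < j + x + 2 ∧ ¬ m < j' + x + 2) ∨ (¬ m < j + x + 2 ∧ m < j' + x + 2) := hx
    simp only [Finset.coe_union, Finset.coe_Ico, Set.mem_union, Set.mem_Ico]
    omega
  · rw [Set.ncard_coe_finset]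
    refine (Finset.card_union_le _ _).trans ?_
    rw [Nat.card_Ico, Nat.card_Ico]
    omega

end count


section main

variable {X : Type} [Finite X] {F : OrientedGraph X} {P : Par X} {h : IsHom F F P.ρ}
  {A a B : ℕ} {x : X → ℕ}

theorem b_pos (ok : Ok F P h A a B x) (hA : 1 ≤ A) : 1 ≤ P.b := by
  have h1 := ok.ha
  have h2 := ok.hb
  have h3 : 1 ≤ a := hA.trans h1
  have h4 : 1 * 1 ≤ A * a ^ 2 := Nat.mul_le_mul hA (Nat.one_le_pow _ _ h3)
  omega

theorem ab_le (ok : Ok F P h A a B x) (hA : 1 ≤ A) : a * P.b ≤ B := by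
  refine le_trans ?_ ok.hB
  calc a * P.b = 1 * (a * P.b) := (one_mul _).symm
    _ ≤ A * (a * P.b) := Nat.mul_le_mul_right _ hA
    _ = A * a * P.b := by ring

theorem b_le (ok : Ok F P h A a B x) (hA : 1 ≤ A) : P.b ≤ B := by
  refine le_trans ?_ (ab_le ok hA)
  calc P.b = 1 * P.b := (one_mul _).symm
    _ ≤ a * P.b := Nat.mul_le_mul_right _ (hA.trans ok.ha)

theorem bB_le (ok : Ok F P h A a B x) : P.b * B ≤ P.m := by
  classical
  have h1 : (Finset.range P.m).card =
      ∑ c ∈ Finset.range P.b, ((Finset.range P.m).filter fun j => P.blk j = c).card :=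
    Finset.card_eq_sum_card_fiberwise fun j hj => by
      simp only [Finset.coe_range, Set.mem_Iio] at hj ⊢
      exact ok.blk_lt j hj
  rw [Finset.card_range] at h1
  have h2 : ∀ c ∈ Finset.range P.b,
      B ≤ ((Finset.range P.m).filter fun j => P.blk j = c).card := by
    intro c hc
    have h3 := ok.blk_card c (Finset.mem_range.1 hc)
    have h4 : {j : ℕ | j < P.m ∧ P.blk j = c} =
        (((Finset.range P.m).filter fun j => P.blk j = c : Finset ℕ) : Set ℕ) := by
      ext j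
      simp
    rw [h4, Set.ncard_coe_finset] at h3
    omega
  rw [h1]
  have h5 := Finset.card_nsmul_le_sum _ _ _ h2
  rwa [Finset.card_range, smul_eq_mul] at h5

theorem m_pos (ok : Ok F P h A a B x) (hA : 1 ≤ A) : 0 < P.m := by
  have h1 := bB_le ok
  have h2 := b_pos ok hA
  have h3 := b_le ok hA
  have h4 : 1 * 1 ≤ P.b * B := Nat.mul_le_mul h2 (h2.trans h3)
  omega

theorem b_le_m (ok : Ok F P h A a B x) (hA : 1 ≤ A) : P.b ≤ P.m := by
  refine le_trans ?_ (bB_le ok)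
  exact Nat.le_mul_of_pos_right _ ((b_pos ok hA).trans (b_le ok hA))

theorem blk_le (ok : Ok F P h A a B x) (hA : 1 ≤ A) (c : ℕ) :
    {j : ℕ | j < P.m ∧ P.blk j = c}.ncard ≤ 2 * B := by
  rcases lt_or_ge c P.b with hc | hc
  · rw [ok.blk_card c hc]
    have := b_le ok hA
    omega
  · refine ncard_empty_le _ ?_ _
    rintro j ⟨h1, h2⟩
    have := ok.blk_lt j h1
    omega

theorem r_le (ok : Ok F P h A a B x) (g : Cls P) : P.r g.1 ≤ xb X * a := by
  rw [ok.hr g]
  exact Nat.mul_le_mul_right _ (ok.hx g).2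

theorem R_le (ok : Ok F P h A a B x) (g : Cls P) : P.R g.1 ≤ xb X * a := by
  obtain ⟨g', -, h2⟩ := ok.Rex g
  rw [← h2]
  exact r_le ok g'

theorem xb_pos (hX : 3 ≤ Nat.card X) : 1 ≤ xb X := Nat.one_le_pow _ _ (by omega)

theorem card_le (ok : Ok F P h A a B x) (hA : 1 ≤ A) (hX : 3 ≤ Nat.card X) :
    Nat.card (Vt P) ≤ 8 * Nat.card X * xb X * (a * P.m) := by
  have h1 : (Set.univ : Set (Vt P)).ncard ≤
      Nat.card X * (xb X * a * P.m + P.m * (xb X * a) + P.m) := by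
    refine ncard_le _ _ _ _ (fun g => ?_) (fun g => ?_) (fun g => ?_)
    · exact (ncard_le_prod _).trans (Nat.mul_le_mul_right _ (r_le ok g))
    · exact (ncard_le_prod _).trans (Nat.mul_le_mul (b_le_m ok hA) (R_le ok g))
    · exact ncard_le_fin _
  rw [Set.ncard_univ] at h1
  refine h1.trans ?_
  have h2 : P.m ≤ xb X * a * P.m := by
    calc P.m = 1 * 1 * P.m := by ring
      _ ≤ xb X * a * P.m :=
        Nat.mul_le_mul_right _ (Nat.mul_le_mul (xb_pos hX) (hA.trans ok.ha))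
  calc Nat.card X * (xb X * a * P.m + P.m * (xb X * a) + P.m)
      ≤ Nat.card X * (xb X * a * P.m + P.m * (xb X * a) + xb X * a * P.m) :=
        Nat.mul_le_mul_left _ (Nat.add_le_add_left h2 _)
    _ = 3 * (Nat.card X * xb X * (a * P.m)) := by ring
    _ ≤ 8 * (Nat.card X * xb X * (a * P.m)) := Nat.mul_le_mul_right _ (by norm_num)
    _ = _ := by ring

theorem le_card (ok : Ok F P h A a B x) (hX : 3 ≤ Nat.card X) :
    a * P.m ≤ Nat.card (Vt P) := by
  have : Nonempty X := (Nat.card_pos_iff.1 (by omega)).1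
  obtain ⟨y⟩ := this
  let g : Cls P := ⟨P.ρ y, y, rfl⟩
  have h1 : Nat.card (Fin (P.r g.1) × Fin P.m) ≤ Nat.card (Vt P) :=
    Nat.card_le_card_of_injective (fun q : Fin (P.r g.1) × Fin P.m => bk g q.1 q.2) (by
      rintro ⟨i, j⟩ ⟨i', j'⟩ hq
      have hq' : (⟨g, Sum.inl (i, j)⟩ : Vt P) = ⟨g, Sum.inl (i', j')⟩ := hq
      simpa using hq')
  refine le_trans ?_ h1
  simp only [Nat.card_eq_fintype_card, Fintype.card_prod, Fintype.card_fin]
  refine Nat.mul_le_mul_right _ ?_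
  rw [ok.hr g]
  exact Nat.le_mul_of_pos_left _ (ok.hx g).1

theorem sd_bk (ok : Ok F P h A a B x) (hA : 1 ≤ A) (hX : 3 ≤ Nat.card X) (g : Cls P)
    (i i' : Fin (P.r g.1)) (j j' : Fin P.m) :
    (sd (gph F P h) (bk g i j) (bk g i' j')).ncard ≤ 8 * Nat.card X * xb X * a := by
  have h1 : (sd (gph F P h) (bk g i j) (bk g i' j')).ncard ≤
      Nat.card X * (0 + 2 * (xb X * a) + 2) := by
    refine ncard_le _ _ _ _ (fun g' => ?_) (fun g' => ?_) (fun g' => ?_)
    · refine ncard_empty_le _ ?_ _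
      rintro q hq
      have hm := mem_sd F P h (bk g i j) (bk g i' j') (bk g' q.1 q.2) rfl hq
      simp only [bk, lab, Mis] at hm
      tauto
    · refine (ncard_row _ {c : Fin P.b | (c : ℕ) = P.blk j ∨ (c : ℕ) = P.blk j'} 2
        (ncard_pair _ _) ?_).trans (Nat.mul_le_mul_left _ (R_le ok g'))
      rintro q hq
      have hm := mem_sd F P h (bk g i j) (bk g i' j') (tt g' q.1 q.2) rfl hq
      simp only [bk, tt, lab, Mis] at hm
      show (q.1 : ℕ) = P.blk j ∨ (q.1 : ℕ) = P.blk j'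
      rcases hm with ⟨hm, -⟩ | ⟨-, hm⟩
      · exact Or.inl hm.1.symm
      · exact Or.inr hm.1.symm
    · refine (Set.ncard_le_ncard ?_).trans (ncard_pair (j : ℕ) (j' : ℕ))
      rintro q hq
      have hm := mem_sd F P h (bk g i j) (bk g i' j') (ww g' q) rfl hq
      simp only [bk, ww, lab, Mis] at hm
      show (q : ℕ) = (j : ℕ) ∨ (q : ℕ) = (j' : ℕ)
      rcases hm with ⟨hm, -⟩ | ⟨-, hm⟩
      · exact Or.inl hm.symm
      · exact Or.inr hm.symm
  refine h1.trans ?_
  have h2 : 1 ≤ xb X * a := Nat.mul_le_mul (xb_pos hX) (hA.trans ok.ha)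
  calc Nat.card X * (0 + 2 * (xb X * a) + 2) ≤ Nat.card X * (8 * (xb X * a)) :=
        Nat.mul_le_mul_left _ (by omega)
    _ = _ := by ring

theorem sd_tt (ok : Ok F P h A a B x) (hA : 1 ≤ A) (g : Cls P)
    (c c' : Fin P.b) (l l' : Fin (P.R g.1)) :
    (sd (gph F P h) (tt g c l) (tt g c' l')).ncard ≤ 8 * Nat.card X * xb X * (a * B) := by
  have h1 : (sd (gph F P h) (tt g c l) (tt g c' l')).ncard ≤
      Nat.card X * (xb X * a * (2 * (2 * B)) + 0 + 0) := by
    refine ncard_le _ _ _ _ (fun g' => ?_) (fun g' => ?_) (fun g' => ?_)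
    · refine (ncard_col _ {j : Fin P.m | P.blk j = c ∨ P.blk j = c'} (2 * (2 * B))
        (ncard_two_blk _ _ (blk_le ok hA) _ _) ?_).trans (Nat.mul_le_mul_right _ (r_le ok g'))
      rintro q hq
      have hm := mem_sd F P h (tt g c l) (tt g c' l') (bk g' q.1 q.2) rfl hq
      simp only [bk, tt, lab, Mis] at hm
      show P.blk q.2 = (c : ℕ) ∨ P.blk q.2 = (c' : ℕ)
      rcases hm with ⟨hm, -⟩ | ⟨-, hm⟩
      · exact Or.inl hm.1
      · exact Or.inr hm.1
    · refine ncard_empty_le _ ?_ _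
      rintro q hq
      have hm := mem_sd F P h (tt g c l) (tt g c' l') (tt g' q.1 q.2) rfl hq
      simp only [tt, lab, Mis] at hm
      tauto
    · refine ncard_empty_le _ ?_ _
      rintro q hq
      have hm := mem_sd F P h (tt g c l) (tt g c' l') (ww g' q) rfl hq
      simp only [tt, ww, lab, Mis] at hm
      tauto
  refine h1.trans ?_
  calc Nat.card X * (xb X * a * (2 * (2 * B)) + 0 + 0) = 4 * (Nat.card X * xb X * (a * B)) := by
        ring
    _ ≤ 8 * (Nat.card X * xb X * (a * B)) := Nat.mul_le_mul_right _ (by norm_num)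
    _ = _ := by ring

theorem sd_ww (ok : Ok F P h A a B x) (hX : 3 ≤ Nat.card X) (g : Cls P) (j j' : Fin P.m) :
    (sd (gph F P h) (ww g j) (ww g j')).ncard ≤
      8 * Nat.card X * xb X * (a + (((j : ℕ) - (j' : ℕ)) + ((j' : ℕ) - (j : ℕ)))) := by
  have h1 : (sd (gph F P h) (ww g j) (ww g j')).ncard ≤
      Nat.card X * (xb X * a * 2 + 0 + (((j : ℕ) - (j' : ℕ)) + ((j' : ℕ) - (j : ℕ)))) := by
    refine ncard_le _ _ _ _ (fun g' => ?_) (fun g' => ?_) (fun g' => ?_)
    · refine (ncard_col _ {y : Fin P.m | (y : ℕ) = (j : ℕ) ∨ (y : ℕ) = (j' : ℕ)} 2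
        (ncard_pair _ _) ?_).trans (Nat.mul_le_mul_right _ (r_le ok g'))
      rintro q hq
      have hm := mem_sd F P h (ww g j) (ww g j') (bk g' q.1 q.2) rfl hq
      simp only [bk, ww, lab, Mis] at hm
      show (q.2 : ℕ) = (j : ℕ) ∨ (q.2 : ℕ) = (j' : ℕ)
      rcases hm with ⟨hm, -⟩ | ⟨-, hm⟩
      · exact Or.inl hm
      · exact Or.inr hm
    · refine ncard_empty_le _ ?_ _
      rintro q hq
      have hm := mem_sd F P h (ww g j) (ww g j') (tt g' q.1 q.2) rfl hq
      simp only [tt, ww, lab, Mis] at hm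
      tauto
    · refine (Set.ncard_le_ncard ?_).trans (ncard_ww (m := P.m) (j : ℕ) (j' : ℕ))
      rintro q hq
      have hm := mem_sd F P h (ww g j) (ww g j') (ww g' q) rfl hq
      simp only [ww, lab, Mis] at hm
      exact hm
  refine h1.trans ?_
  set d := ((j : ℕ) - (j' : ℕ)) + ((j' : ℕ) - (j : ℕ)) with hd
  have h2 : d ≤ xb X * d := Nat.le_mul_of_pos_left _ (xb_pos hX)
  calc Nat.card X * (xb X * a * 2 + 0 + d) ≤ Nat.card X * (xb X * a * 2 + 0 + xb X * d) :=
        Nat.mul_le_mul_left _ (by omega)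
    _ ≤ Nat.card X * (8 * (xb X * a) + 8 * (xb X * d)) :=
        Nat.mul_le_mul_left _ (by omega)
    _ = _ := by ring

/-- the missing vertices -/
theorem mis_le (ok : Ok F P h A a B x) (hA : 1 ≤ A) (hX : 3 ≤ Nat.card X) (v : Vt P) :
    {u : Vt P | Mis P (lab v) (lab u)}.ncard ≤ 8 * Nat.card X * xb X * (P.m + a * B) := by
  have hM : 1 ≤ xb X := xb_pos hX
  have ha1 : 1 ≤ a := hA.trans ok.ha
  have hB1 : 1 ≤ B := (b_pos ok hA).trans (b_le ok hA)
  have key : ∀ q1 q2 q3 : ℕ, q1 + q2 + q3 ≤ 8 * (xb X * (P.m + a * B)) →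
      {u : Vt P | Mis P (lab v) (lab u)}.ncard ≤ Nat.card X * (q1 + q2 + q3) →
      {u : Vt P | Mis P (lab v) (lab u)}.ncard ≤ 8 * Nat.card X * xb X * (P.m + a * B) := by
    intro q1 q2 q3 h1 h2
    refine h2.trans ((Nat.mul_le_mul_left _ h1).trans_eq ?_)
    ring
  have e1 : a ≤ a * B := Nat.le_mul_of_pos_right _ hB1
  have e2 : xb X * (P.m + a * B) = xb X * P.m + xb X * (a * B) := Nat.mul_add _ _ _
  have e3 : xb X * a ≤ xb X * (a * B) := Nat.mul_le_mul_left _ e1
  have e4 : P.m ≤ xb X * P.m := Nat.le_mul_of_pos_left _ hM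
  have e5 : 1 ≤ xb X * a := Nat.mul_le_mul hM ha1
  rcases v with ⟨g, ⟨i, j⟩ | ⟨c, l⟩ | j⟩
  · refine key 0 (1 * (xb X * a)) 1 (by omega) ?_
    refine ncard_le _ _ _ _ (fun g' => ?_) (fun g' => ?_) (fun g' => ?_)
    · refine ncard_empty_le _ ?_ _
      rintro q hq
      have hm : Mis P (lab (bk g i j)) (lab (bk g' q.1 q.2)) := hq
      exact hm
    · refine (ncard_row _ {c : Fin P.b | (c : ℕ) = P.blk j} 1 (ncard_one _) ?_).trans
        (Nat.mul_le_mul_left _ (R_le ok g'))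
      rintro q hq
      have hm : Mis P (lab (bk g i j)) (lab (tt g' q.1 q.2)) := hq
      simp only [bk, tt, ww, lab, Mis] at hm
      exact hm.1.symm
    · refine (Set.ncard_le_ncard ?_).trans (ncard_one (j : ℕ))
      rintro q hq
      have hm : Mis P (lab (bk g i j)) (lab (ww g' q)) := hq
      simp only [bk, tt, ww, lab, Mis] at hm
      exact hm.symm
  · have e6 : xb X * a * (2 * B) = 2 * (xb X * (a * B)) := by ring
    refine key (xb X * a * (2 * B)) 0 P.m (by omega) ?_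
    refine ncard_le _ _ _ _ (fun g' => ?_) (fun g' => ?_) (fun g' => ?_)
    · refine (ncard_col _ {y : Fin P.m | P.blk y = c} (2 * B)
        (by rw [ncard_blk]; exact blk_le ok hA _) ?_).trans (Nat.mul_le_mul_right _ (r_le ok g'))
      rintro q hq
      have hm : Mis P (lab (tt g c l)) (lab (bk g' q.1 q.2)) := hq
      simp only [bk, tt, ww, lab, Mis] at hm
      exact hm.1
    · refine ncard_empty_le _ ?_ _
      rintro q hq
      have hm : Mis P (lab (tt g c l)) (lab (tt g' q.1 q.2)) := hq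
      exact hm
    · exact ncard_le_fin _
  · have e6 : P.b * (xb X * a) ≤ xb X * (a * B) := by
      calc P.b * (xb X * a) = xb X * (a * P.b) := by ring
        _ ≤ xb X * B := Nat.mul_le_mul_left _ (ab_le ok hA)
        _ ≤ xb X * (a * B) := Nat.mul_le_mul_left _ (Nat.le_mul_of_pos_left _ ha1)
    refine key (xb X * a * 1) (P.b * (xb X * a)) P.m (by omega) ?_
    refine ncard_le _ _ _ _ (fun g' => ?_) (fun g' => ?_) (fun g' => ?_)
    · refine (ncard_col _ {y : Fin P.m | (y : ℕ) = (j : ℕ)} 1 (ncard_one _) ?_).trans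
        (Nat.mul_le_mul_right _ (r_le ok g'))
      rintro q hq
      have hm : Mis P (lab (ww g j)) (lab (bk g' q.1 q.2)) := hq
      simp only [bk, tt, ww, lab, Mis] at hm
      exact hm
    · exact (ncard_le_prod _).trans (Nat.mul_le_mul_left _ (R_le ok g'))
    · exact ncard_le_fin _

/-- the missing bulk vertices -/
theorem misb_le (ok : Ok F P h A a B x) (hA : 1 ≤ A) (v : Vt P) :
    {u : Vt P | (∃ g i j, u = bk g i j) ∧ Mis P (lab v) (lab u)}.ncard ≤
      8 * Nat.card X * xb X * (a * B) := by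
  have hB1 : 1 ≤ B := (b_pos ok hA).trans (b_le ok hA)
  have key : ∀ q1 : ℕ, q1 ≤ 8 * (xb X * (a * B)) →
      (∀ g : Cls P, {q : Fin (P.r g.1) × Fin P.m | Mis P (lab v) (lab (bk g q.1 q.2))}.ncard ≤ q1) →
      {u : Vt P | (∃ g i j, u = bk g i j) ∧ Mis P (lab v) (lab u)}.ncard ≤
        8 * Nat.card X * xb X * (a * B) := by
    intro q1 h1 h2
    have h3 : {u : Vt P | (∃ g i j, u = bk g i j) ∧ Mis P (lab v) (lab u)}.ncard ≤
        Nat.card X * (q1 + 0 + 0) := by
      refine ncard_le _ _ _ _ (fun g' => ?_) (fun g' => ?_) (fun g' => ?_)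
      · exact (Set.ncard_le_ncard (fun q hq => hq.2)).trans (h2 g')
      · refine ncard_empty_le _ ?_ _
        rintro q ⟨⟨g, i, j, hq⟩, -⟩
        have h4 := congrArg lab hq
        simp only [tt, bk, lab] at h4
        exact absurd h4 (by simp)
      · refine ncard_empty_le _ ?_ _
        rintro q ⟨⟨g, i, j, hq⟩, -⟩
        have h4 := congrArg lab hq
        simp only [ww, bk, lab] at h4
        exact absurd h4 (by simp)
    refine h3.trans ?_
    calc Nat.card X * (q1 + 0 + 0) ≤ Nat.card X * (8 * (xb X * (a * B))) :=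
          Nat.mul_le_mul_left _ (by omega)
      _ = _ := by ring
  rcases v with ⟨g, ⟨i, j⟩ | ⟨c, l⟩ | j⟩
  · refine key 0 (Nat.zero_le _) fun g' => ?_
    refine ncard_empty_le _ ?_ _
    rintro q hq
    have hm : Mis P (lab (bk g i j)) (lab (bk g' q.1 q.2)) := hq
    exact hm
  · have e6 : xb X * a * (2 * B) = 2 * (xb X * (a * B)) := by ring
    refine key (xb X * a * (2 * B)) (by omega) fun g' => ?_
    refine (ncard_col _ {y : Fin P.m | P.blk y = c} (2 * B)
      (by rw [ncard_blk]; exact blk_le ok hA _) ?_).trans (Nat.mul_le_mul_right _ (r_le ok g'))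
    rintro q hq
    have hm : Mis P (lab (tt g c l)) (lab (bk g' q.1 q.2)) := hq
    simp only [bk, tt, ww, lab, Mis] at hm
    exact hm.1
  · have e1 : xb X * a * 1 ≤ xb X * (a * B) := by
      rw [mul_one]
      exact Nat.mul_le_mul_left _ (Nat.le_mul_of_pos_right _ hB1)
    refine key (xb X * a * 1) (by omega) fun g' => ?_
    refine (ncard_col _ {y : Fin P.m | (y : ℕ) = (j : ℕ)} 1 (ncard_one _) ?_).trans
      (Nat.mul_le_mul_right _ (r_le ok g'))
    rintro q hq
    have hm : Mis P (lab (ww g j)) (lab (bk g' q.1 q.2)) := hq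
    simp only [bk, tt, ww, lab, Mis] at hm
    exact hm

end main

/-- JOB SIZE -/
theorem size : StSize := by
  intro X _ F hF hX
  refine ⟨((8 * Nat.card X * xb X : ℕ) : ℝ), ?_, 1, ?_⟩
  · have h1 := xb_pos hX
    have h2 : 0 < 8 * Nat.card X * xb X := Nat.mul_pos (by omega) h1
    exact_mod_cast h2
  intro P h a B x ok
  have hm := m_pos ok le_rfl
  have hc := le_card ok hX
  have ha1 : 1 ≤ a := ok.ha
  have hcp : 0 < Nat.card (Vt P) := lt_of_lt_of_le (Nat.mul_pos ha1 hm) hc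
  refine ⟨hm, hcp, bB_le ok, blk_le ok le_rfl, ?_, by exact_mod_cast hc, fun g => R_le ok g,
    ?_, ?_, ?_, ?_, ?_⟩
  · exact_mod_cast card_le ok le_rfl hX
  · intro g i i' j j'
    exact_mod_cast sd_bk ok le_rfl hX g i i' j j'
  · intro g c c' l l'
    exact_mod_cast sd_tt ok le_rfl g c c' l l'
  · intro g j j'
    have h1 := sd_ww ok hX g j j'
    have h2 : ((((j : ℕ) - (j' : ℕ)) + ((j' : ℕ) - (j : ℕ)) : ℕ) : ℝ) =
        |((j : ℕ) : ℝ) - ((j' : ℕ) : ℝ)| := by
      rcases le_total (j : ℕ) (j' : ℕ) with h3 | h3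
      · rw [Nat.sub_eq_zero_of_le h3, zero_add, Nat.cast_sub h3, abs_sub_comm, abs_of_nonneg]
        have : ((j : ℕ) : ℝ) ≤ ((j' : ℕ) : ℝ) := by exact_mod_cast h3
        linarith
      · rw [Nat.sub_eq_zero_of_le h3, add_zero, Nat.cast_sub h3, abs_of_nonneg]
        have : ((j' : ℕ) : ℝ) ≤ ((j : ℕ) : ℝ) := by exact_mod_cast h3
        linarith
    rw [← h2]
    exact_mod_cast h1
  · intro v
    have h1 := mis_le ok le_rfl hX v
    have h2 : ({u | (img F P.ρ h).underlying.Adj (cl v) (cl u)} \ nb (gph F P h) v : Set (Vt P)) ⊆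
        {u : Vt P | Mis P (lab v) (lab u)} := by
      rintro u ⟨hu1, hu2⟩
      by_contra hu3
      exact hu2 ((adj_iff F P h v u).2 ⟨hu1, hu3⟩)
    have h3 := (Set.ncard_le_ncard h2).trans h1
    exact_mod_cast h3
  · intro v
    have h1 := misb_le ok le_rfl v
    have h2 : ({u | (img F P.ρ h).underlying.Adj (cl v) (cl u) ∧ (∃ g i j, u = bk g i j) ∧
        u ∉ nb (gph F P h) v} : Set (Vt P)) ⊆
        {u : Vt P | (∃ g i j, u = bk g i j) ∧ Mis P (lab v) (lab u)} := by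
      rintro u ⟨hu1, hu2, hu3⟩
      refine ⟨hu2, ?_⟩
      by_contra hu4
      exact hu3 ((adj_iff F P h v u).2 ⟨hu1, hu4⟩)
    have h3 := (Set.ncard_le_ncard h2).trans h1
    exact_mod_cast h3

end Pool.Agent.K7.H41.FI
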